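import Mathlib

namespace Pool.Agent.Results.MP_2ddb17_co.FlatNotFree
open Finsupp

/-- a countable locally finite multigraph with oriented edges and a set of interior vertices -/
structure BGraph (V E : Type) where
  src : E → V
  tgt : E → V
  rev : E → E
  rev_rev : ∀ e, rev (rev e) = e
  rev_ne : ∀ e, rev e ≠ e
  src_rev : ∀ e, src (rev e) = tgt e
  locFin : ∀ x, {e | src e = x}.Finite
  interior : Set V

variable {V E : Type} (G : BGraph V E) {R : Type} [CommRing R]

/-- the value `L x` of the generalized Laplacian -/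
noncomputable def lap (w : E → Rˣ) (d : V → R) (x : V) : V →₀ R :=
  d x • single x 1 + ∑ e ∈ (G.locFin x).toFinset, (w e : R) • (single x 1 - single (G.tgt e) 1)

/-- the fundamental module `RV / L(RV°)` -/
abbrev Ups (w : E → Rˣ) (d : V → R) : Type :=
  (V →₀ R) ⧸ Submodule.span R (lap G w d '' G.interior)

def G0 : BGraph (ℕ × Bool) (ℕ × Fin 3 × Bool) where
  src e := if e.2.2 then (e.1, true) else (if e.2.1 = 0 then e.1 else e.1 + 1, false)
  tgt e := if e.2.2 then (if e.2.1 = 0 then e.1 else e.1 + 1, false) else (e.1, true)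
  rev e := (e.1, e.2.1, !e.2.2)
  rev_rev e := by simp
  rev_ne := by rintro ⟨i, k, b⟩; simp
  src_rev := by rintro ⟨i, k, _ | _⟩ <;> simp
  locFin x := ((Set.finite_Iic x.1).prod Set.finite_univ).subset (by
    rintro ⟨i, k, _ | _⟩ rfl <;> simp; split_ifs <;> simp)
  interior := {x | x.2 = true}

lemma lap0 (w : ℕ × Fin 3 × Bool → Rˣ) (d : ℕ × Bool → R) (i : ℕ) : lap G0 w d (i, true) =
    d (i, true) • single (i, true) 1 + ((w (i, 0, true) : R) • (single (i, true) 1 - single (i, false) 1)
    + (w (i, 1, true) : R) • (single (i, true) 1 - single (i + 1, false) 1)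
    + (w (i, 2, true) : R) • (single (i, true) 1 - single (i + 1, false) 1)) := by
  have : (G0.locFin (i, true)).toFinset = Finset.univ.map ⟨fun k => (i, k, true), fun a b h => by
      simpa using h⟩ := by
    ext ⟨j, k, _ | _⟩ <;> simp [G0, eq_comm (a := i)]
  rw [lap, this, Finset.sum_map, Fin.sum_univ_three]
  rfl

lemma flat (w : ℕ × Fin 3 × Bool → Rˣ) (d : ℕ × Bool → R) : Module.Flat R (Ups G0 w d) := by
  set K := Submodule.span R (lap G0 w d '' G0.interior)
  have key : ∀ n, ∃ S : Module.End R (ℕ × Bool →₀ R), K.mkQ ∘ₗ S = K.mkQ ∧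
      (∀ j < n, S (lap G0 w d (j, true)) = 0) ∧
      ∀ j ≥ n, S (lap G0 w d (j, true)) = lap G0 w d (j, true) := by
    intro n
    induction n with
    | zero => exact ⟨1, rfl, by simp, fun _ _ => rfl⟩
    | succ n ih =>
      obtain ⟨S, h1, h2, h3⟩ := ih
      refine ⟨(1 + ((((w (n, 0, true))⁻¹ : Rˣ) : R) • lapply (n, false)).smulRight
        (lap G0 w d (n, true))) * S, ?_, fun j hj => ?_, fun j hj => ?_⟩
      · refine LinearMap.ext fun v => ?_
        have : K.mkQ (lap G0 w d (n, true)) = 0 :=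
          (Submodule.Quotient.mk_eq_zero K).2 (Submodule.subset_span ⟨_, rfl, rfl⟩)
        rw [← LinearMap.congr_fun h1 v]
        simp only [LinearMap.comp_apply, Module.End.mul_apply, LinearMap.add_apply, map_add,
          LinearMap.smulRight_apply, map_smul, this, smul_zero, add_zero, Module.End.one_apply]
      · rcases Nat.lt_succ_iff_lt_or_eq.1 hj with h | rfl
        · simp [h2 j h]
        · have : lap G0 w d (j, true) (j, false) = -w (j, 0, true) := by simp [lap0]
          simp [h3 j le_rfl, this]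
      · have : lap G0 w d (j, true) (n, false) = 0 := by
          have a : j ≠ n := by omega
          have b : j + 1 ≠ n := by omega
          simp [lap0, a, b]
        simp [h3 j (by omega), this]
  have key2 : ∀ u ∈ K, ∃ n, ∀ S : Module.End R (ℕ × Bool →₀ R),
      (∀ j < n, S (lap G0 w d (j, true)) = 0) → S u = 0 := by
    intro u hu
    induction hu using Submodule.span_induction with
    | mem x hx =>
      obtain ⟨⟨i, b⟩, hb, rfl⟩ := hx
      obtain rfl : b = true := hb
      exact ⟨i + 1, fun S h => h i (by omega)⟩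
    | zero => exact ⟨0, by simp⟩
    | add x y _ _ hx hy =>
      obtain ⟨m, hm⟩ := hx
      obtain ⟨n, hn⟩ := hy
      exact ⟨max m n, fun S h => by
        rw [map_add, hm S fun j _ => h j (by omega), hn S fun j _ => h j (by omega), add_zero]⟩
    | smul a x _ hx => exact hx.imp fun n hn S h => by rw [map_smul, hn S h, smul_zero]
  refine Module.Flat.of_forall_exists_factorization fun {l f x} hx => ?_
  obtain ⟨x', rfl⟩ := Module.projective_lifting_property K.mkQ x K.mkQ_surjective
  obtain ⟨n, hn⟩ := key2 _ ((Submodule.Quotient.mk_eq_zero K).1 hx)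
  obtain ⟨S, h1, h2, -⟩ := key n
  obtain ⟨k, a, y, e, ha⟩ := Module.Flat.exists_factorization_of_apply_eq_zero_of_free
    (x := S ∘ₗ x') (f := f) (hn S h2)
  exact ⟨k, a, K.mkQ ∘ₗ y, by rw [LinearMap.comp_assoc, ← e, ← LinearMap.comp_assoc, h1], ha⟩

theorem result : ∃ (V E : Type) (G : BGraph V E), Countable V ∧ Infinite V ∧
    (∀ (R : Type) [CommRing R] (w : E → Rˣ) (d : V → R), (∀ e, w (G.rev e) = w e) →
      Module.Flat R (Ups G w d)) ∧
    ∃ (R : Type) (_ : CommRing R) (w : E → Rˣ) (d : V → R), (∀ e, w (G.rev e) = w e) ∧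
      ¬ Module.Free R (Ups G w d) := by
  refine ⟨_, _, G0, inferInstance, inferInstance, fun R _ w d _ => flat w d, ℤ, inferInstance,
    fun _ => 1, fun _ => -3, fun _ => rfl, fun h => ?_⟩
  set K := Submodule.span ℤ (lap G0 (fun _ => (1 : ℤˣ)) (fun _ => -3) '' G0.interior)
  have hl : ∀ i, lap G0 (fun _ => (1 : ℤˣ)) (fun _ => -3) (i, true) =
      -(single (i, false) 1 + (2 : ℤ) • single (i + 1, false) 1) := fun i => by
    rw [lap0]; simp only [Units.val_one]; module
  have h1 : ∀ n, K.mkQ (single (0, false) 1) = (-2 : ℤ) ^ n • K.mkQ (single (n, false) 1) := by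
    intro n
    induction n with
    | zero => simp
    | succ n ih =>
      have : K.mkQ (lap G0 _ _ (n, true)) = 0 :=
        (Submodule.Quotient.mk_eq_zero K).2 (Submodule.subset_span ⟨_, rfl, rfl⟩)
      rw [hl, map_neg, neg_eq_zero, map_add, map_smul, add_eq_zero_iff_eq_neg] at this
      rw [ih, this, pow_succ, mul_smul, neg_smul]
  have h2 : K.mkQ (single (0, false) 1) = 0 := by
    let b := Module.Free.chooseBasis ℤ (Ups G0 (fun _ => (1 : ℤˣ)) fun _ => -3)
    refine b.ext_elem fun i => ?_
    rw [map_zero, Finsupp.zero_apply]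
    refine (FiniteMultiplicity.not_iff_forall (a := (-2 : ℤ))).2 ?_ |> fun h => by_contra fun h0 =>
      h (Int.finiteMultiplicity_iff.2 ⟨by decide, h0⟩)
    intro n
    exact ⟨_, by rw [h1 n, map_smul]; rfl⟩
  let φ : (ℕ × Bool →₀ ℤ) →ₗ[ℤ] ℚ :=
    linearCombination ℤ fun x => if x.2 then 0 else (-1 / 2 : ℚ) ^ x.1
  have h3 : K ≤ LinearMap.ker φ := Submodule.span_le.2 (by
    rintro _ ⟨⟨i, b⟩, hb, rfl⟩
    obtain rfl : b = true := hb
    simp only [SetLike.mem_coe, LinearMap.mem_ker, hl, map_neg, map_add, map_smul]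
    simp [φ, pow_succ]; ring)
  simpa [φ] using h3 ((Submodule.Quotient.mk_eq_zero K).1 h2)

end Pool.Agent.Results.MP_2ddb17_co.FlatNotFree
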